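import Mathlib

/-!
# The chromatic spectrum of an `S`-signed graph need not be an interval

Two vertices joined by three edges, with `S` the group generated by a `3`-cycle: the spectrum
contains `2` and `4` but not `3`.
-/

namespace Pool.Agent.Results.MP_3ca1b2_co.SpectrumGap

/-- A loopless graph with the vertex set `V` and the edge set `A`: every edge `a` has two distinct
ends; it is viewed as the arc `(src a, tgt a)` together with the opposite arc. -/
structure Graph (V A : Type) where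
  src : A → V
  tgt : A → V
  loopless : ∀ a, src a ≠ tgt a

/-- `S_k`: the permutations of the positive integers (here of the natural numbers, with `0` fixed)
which fix every integer larger than `k`. -/
def InSk (k : ℕ) (π : Equiv.Perm ℕ) : Prop := π 0 = 0 ∧ ∀ x, k < x → π x = x

variable {V A : Type}

/-- `c` is a `j`-colouring of the signed graph; the arc `(src a, tgt a)` has the permutation `σ a`
and the opposite arc has the inverse permutation. -/
def IsColouring (G : Graph V A) (σ : A → Equiv.Perm ℕ) (j : ℕ) (c : V → ℕ) : Prop :=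
  (∀ v, 1 ≤ c v ∧ c v ≤ j) ∧
    ∀ a, σ a (c (G.src a)) ≠ c (G.tgt a) ∧ (σ a)⁻¹ (c (G.tgt a)) ≠ c (G.src a)

/-- The chromatic number of the signed graph is `χ`. -/
def HasChromaticNumber (G : Graph V A) (σ : A → Equiv.Perm ℕ) (χ : ℕ) : Prop :=
  IsLeast {j : ℕ | 1 ≤ j ∧ ∃ c, IsColouring G σ j c} χ

/-- The `S`-chromatic spectrum. -/
def spectrum (S : Set (Equiv.Perm ℕ)) (G : Graph V A) : Set ℕ :=
  {χ | ∃ σ : A → Equiv.Perm ℕ, (∀ a, σ a ∈ S) ∧ HasChromaticNumber G σ χ}

/-- The `3`-cycle `1 → 2 → 3 → 1`. -/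
def ρ : Equiv.Perm ℕ := Equiv.swap 1 2 * Equiv.swap 2 3

/-- The powers of the `3`-cycle. -/
def p (i : Fin 3) : Equiv.Perm ℕ := ρ ^ (i : ℕ)

/-- Two vertices joined by three edges. -/
def G₀ : Graph (Fin 2) (Fin 3) where
  src := fun _ => 0
  tgt := fun _ => 1
  loopless := fun _ => by decide

lemma ρ_apply (x : ℕ) : ρ x = if x = 1 then 2 else if x = 2 then 3 else if x = 3 then 1 else x := by
  unfold ρ
  rw [Equiv.Perm.mul_apply]
  by_cases h1 : x = 1
  · subst h1
    decide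
  by_cases h2 : x = 2
  · subst h2
    decide
  by_cases h3 : x = 3
  · subst h3
    decide
  · rw [Equiv.swap_apply_of_ne_of_ne h2 h3, Equiv.swap_apply_of_ne_of_ne h1 h2]
    simp [h1, h2, h3]

lemma ρ_cube : ρ ^ 3 = 1 := by
  ext x
  simp only [pow_succ, pow_zero, one_mul, Equiv.Perm.mul_apply, Equiv.Perm.one_apply, ρ_apply]
  split_ifs <;> omega

lemma p_apply (i : Fin 3) (x : ℕ) (hx : 1 ≤ x ∧ x ≤ 3) :
    p i x = if x + i ≤ 3 then x + i else x + i - 3 := by
  obtain ⟨h1, h2⟩ := hx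
  unfold p
  fin_cases i <;> simp only [pow_zero, pow_one, pow_two, Equiv.Perm.one_apply,
    Equiv.Perm.mul_apply, ρ_apply] <;> interval_cases x <;> rfl

lemma p_apply_big (i : Fin 3) (x : ℕ) (hx : x = 0 ∨ 3 < x) : p i x = x := by
  unfold p
  have h : ρ x = x := by
    rw [ρ_apply]
    split_ifs <;> omega
  fin_cases i <;> simp [pow_succ, h]

lemma isColouring_iff (τ : Fin 3 → Fin 3) (j : ℕ) (c : Fin 2 → ℕ) :
    IsColouring G₀ (fun a => p (τ a)) j c ↔
      ((1 ≤ c 0 ∧ c 0 ≤ j) ∧ (1 ≤ c 1 ∧ c 1 ≤ j)) ∧ ∀ a, p (τ a) (c 0) ≠ c 1 := by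
  unfold IsColouring
  constructor
  · rintro ⟨h1, h2⟩
    exact ⟨⟨h1 0, h1 1⟩, fun a => (h2 a).1⟩
  · rintro ⟨⟨h1, h2⟩, h3⟩
    refine ⟨fun v => ?_, fun a => ⟨h3 a, fun h => h3 a ?_⟩⟩
    · fin_cases v
      · exact h1
      · exact h2
    · change p (τ a) (G₀.src a |> c) = c (G₀.tgt a)
      rw [← h]
      simp

/-- Either all the three permutations occur or two colours suffice. -/
lemma cases_sig (τ : Fin 3 → Fin 3) : (∀ i, ∃ a, τ a = i) ∨
    ∃ x y : ℕ, 1 ≤ x ∧ x ≤ 2 ∧ 1 ≤ y ∧ y ≤ 2 ∧ ∀ a, p (τ a) x ≠ y := by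
  by_cases h : ∀ i, ∃ a, τ a = i
  · exact Or.inl h
  · right
    push Not at h
    obtain ⟨i, hi⟩ := h
    fin_cases i
    · refine ⟨1, 1, by norm_num, by norm_num, by norm_num, by norm_num, fun a => ?_⟩
      have h1 := hi a
      rw [p_apply _ _ (by norm_num)]
      revert h1
      generalize τ a = t
      fin_cases t <;> simp
    · refine ⟨1, 2, by norm_num, by norm_num, by norm_num, by norm_num, fun a => ?_⟩
      have h1 := hi a
      rw [p_apply _ _ (by norm_num)]
      revert h1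
      generalize τ a = t
      fin_cases t <;> simp
    · refine ⟨2, 1, by norm_num, by norm_num, by norm_num, by norm_num, fun a => ?_⟩
      have h1 := hi a
      rw [p_apply _ _ (by norm_num)]
      revert h1
      generalize τ a = t
      fin_cases t <;> simp

/-- Three colours do not suffice if all the permutations occur. -/
lemma not_three (τ : Fin 3 → Fin 3) (h : ∀ i, ∃ a, τ a = i) (j : ℕ) (hj : j ≤ 3)
    (c : Fin 2 → ℕ) : ¬ IsColouring G₀ (fun a => p (τ a)) j c := by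
  rw [isColouring_iff]
  rintro ⟨⟨h1, h2⟩, h3⟩
  have key : ∀ x y : ℕ, 1 ≤ x → x ≤ 3 → 1 ≤ y → y ≤ 3 →
      ∃ i : Fin 3, (if x + (i : ℕ) ≤ 3 then x + (i : ℕ) else x + i - 3) = y := by
    intro x y hx1 hx2 hy1 hy2
    interval_cases x <;> interval_cases y <;> decide
  obtain ⟨i, hi⟩ := key (c 0) (c 1) h1.1 (by omega) h2.1 (by omega)
  obtain ⟨a, ha⟩ := h i
  apply h3 a
  rw [ha, p_apply _ _ ⟨h1.1, by omega⟩]
  exact hi

lemma mem_S (σ : Fin 3 → Equiv.Perm ℕ) (h : ∀ a, σ a ∈ Set.range p) :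
    ∃ τ : Fin 3 → Fin 3, σ = fun a => p (τ a) := by
  choose τ hτ using h
  exact ⟨τ, funext fun a => (hτ a).symm⟩

lemma two_mem : 2 ∈ spectrum (Set.range p) G₀ := by
  refine ⟨fun _ => p 0, fun a => ⟨0, rfl⟩, ⟨by norm_num, fun v => if v = 0 then 1 else 2, ?_⟩, ?_⟩
  · rw [isColouring_iff (fun _ => 0)]
    refine ⟨by simp, fun a => ?_⟩
    simp only [if_true]
    rw [p_apply _ _ (by norm_num)]
    simp
  · rintro j ⟨h1, c, hc⟩
    rw [isColouring_iff (fun _ => 0)] at hc
    by_contra h2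
    have h3 : j = 1 := by omega
    subst h3
    obtain ⟨⟨h4, h5⟩, h6⟩ := hc
    apply h6 0
    have h7 : c 0 = 1 := by omega
    have h8 : c 1 = 1 := by omega
    rw [h7, h8, p_apply _ _ (by norm_num)]
    simp

lemma four_mem : 4 ∈ spectrum (Set.range p) G₀ := by
  refine ⟨fun a => p a, fun a => ⟨a, rfl⟩, ⟨by norm_num, fun v => if v = 0 then 1 else 4, ?_⟩, ?_⟩
  · rw [isColouring_iff (fun a => a)]
    refine ⟨by simp, fun a => ?_⟩
    simp only [if_true]
    rw [p_apply _ _ (by norm_num)]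
    fin_cases a <;> simp
  · rintro j ⟨h1, c, hc⟩
    by_contra h2
    exact not_three (fun a => a) (fun i => ⟨i, rfl⟩) j (by omega) c hc

lemma three_not_mem : 3 ∉ spectrum (Set.range p) G₀ := by
  rintro ⟨σ, h1, ⟨-, c, hc⟩, h3⟩
  obtain ⟨τ, rfl⟩ := mem_S σ h1
  rcases cases_sig τ with h | ⟨x, y, hx1, hx2, hy1, hy2, h⟩
  · exact not_three τ h 3 le_rfl c hc
  · have h4 : (2 : ℕ) ∈ {j : ℕ | 1 ≤ j ∧ ∃ c, IsColouring G₀ (fun a => p (τ a)) j c} := by
      refine ⟨by norm_num, fun v => if v = 0 then x else y, ?_⟩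
      rw [isColouring_iff]
      refine ⟨?_, fun a => ?_⟩
      · simp
        omega
      · simpa using h a
    have h5 := h3 h4
    omega

/-- There are `k`, a nonempty inverse-closed set `S` of permutations of `{1, ..., k}`, a finite
loopless graph `G` and integers `a < b < c` such that `a` and `c` are in the `S`-chromatic spectrum
of `G` and `b` is not. -/
theorem result : ∃ (k : ℕ) (S : Set (Equiv.Perm ℕ)), 1 ≤ k ∧ S.Nonempty ∧ (∀ π ∈ S, InSk k π) ∧
    (∀ π ∈ S, π⁻¹ ∈ S) ∧ ∃ (V A : Type) (_ : Finite V) (_ : Finite A) (G : Graph V A) (a b c : ℕ),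
      a < b ∧ b < c ∧ a ∈ spectrum S G ∧ c ∈ spectrum S G ∧ b ∉ spectrum S G := by
  refine ⟨3, Set.range p, by norm_num, ⟨p 0, 0, rfl⟩, ?_, ?_, Fin 2, Fin 3, inferInstance,
    inferInstance, G₀, 2, 3, 4, by norm_num, by norm_num, two_mem, four_mem, three_not_mem⟩
  · rintro π ⟨i, rfl⟩
    exact ⟨p_apply_big i 0 (Or.inl rfl), fun x hx => p_apply_big i x (Or.inr hx)⟩
  · rintro π ⟨i, rfl⟩
    have h := ρ_cube
    fin_cases i
    · exact ⟨0, by simp [p]⟩
    · refine ⟨2, ?_⟩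
      rw [eq_inv_iff_mul_eq_one]
      simp only [p]
      exact (pow_succ ρ 2).symm.trans h
    · refine ⟨1, ?_⟩
      rw [eq_inv_iff_mul_eq_one]
      simp only [p]
      exact (pow_succ' ρ 2).symm.trans h

end Pool.Agent.Results.MP_3ca1b2_co.SpectrumGap
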